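import Mathlib

/-!
# Shortest-paths preserving integer reweightings of DAGs need exponential weights

For every `k` there is a weighted DAG with `12 k + 36` vertices such that every shortest-paths
preserving reweighting with positive integer weights has an edge of weight at least `2 ^ k`. In
particular there is no constant `c` such that all weighted DAGs with `n` vertices have such
reweightings with weights at most `n ^ c`.

Construction. The DAG has three layers: rows, columns and tests; every row is joined to every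
column, and every test is entered from two or three columns. For a reweighting put
`z i j = w (i, 0) + w (0, j) - w (i, j) - w (0, 0)` (`i` a row, `j` a column). A test whose shortest
paths from the rows of an alternating cycle use prescribed columns enforces a strict inequality
between two sums of weights on this cycle. In this way four families of tests enforce
`z (i+1) (i+1) > z i (i+1)`, `z i (i+3) > z i (i+1)`,
`z (i+2) (i+3) > z (i+2) (i+2) + z i (i+3)` and `z i (i+1) > 0`; hence `z i (i+1)` grows like the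
Fibonacci numbers. (The third inequality comes from cycles of length six.)
-/

set_option autoImplicit false

namespace Pool.Agent.Results.MP_546b07_lc.ExponentialWeights

/-- A directed path in the digraph with the edge relation `E`, as its nonempty list of vertices
(in an acyclic digraph its vertices are distinct). -/
def IsPath {V : Type} (E : V → V → Prop) (p : List V) : Prop := p ≠ [] ∧ List.IsChain E p

/-- The weight of a path: the sum of the weights of its edges. -/
def wt {V : Type} (w : V → V → ℝ) : List V → ℝ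
  | [] => 0
  | [_] => 0
  | x :: y :: l => w x y + wt w (y :: l)

/-- `p` is a shortest path between its own endpoints. -/
def IsShortest {V : Type} (E : V → V → Prop) (w : V → V → ℝ) (p : List V) : Prop :=
  IsPath E p ∧ ∀ q, IsPath E q → q.head? = p.head? → q.getLast? = p.getLast? → wt w p ≤ wt w q

/-- The reweighting `w'` of the digraph with weights `w` is shortest-paths preserving: every path
which is shortest for `w'` is shortest for `w`. -/
def Preserves {V : Type} (E : V → V → Prop) (w w' : V → V → ℝ) : Prop :=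
  ∀ p, IsShortest E w' p → IsShortest E w p

/-- `(V, E, w)` is a weighted DAG: there are no directed cycles, and the weights of the edges are
positive (the values of `w` at other pairs play no role). -/
def IsWeightedDAG {V : Type} (E : V → V → Prop) (w : V → V → ℝ) : Prop :=
  (∀ v, ¬ Relation.TransGen E v v) ∧ ∀ x y, E x y → 0 < w x y

/-- Every shortest-paths preserving reweighting with positive integer weights has an edge of weight
at least `N`. -/
def Needs {V : Type} (E : V → V → Prop) (w : V → V → ℝ) (N : ℝ) : Prop :=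
  ∀ w' : V → V → ℕ, (∀ x y, E x y → 0 < w' x y) → Preserves E w (fun x y => (w' x y : ℝ)) →
    ∃ x y, E x y ∧ N ≤ (w' x y : ℝ)

/-! ## Paths in layered graphs -/

section general

variable {V : Type} {E : V → V → Prop} {lay : V → ℕ}

lemma lay_chain (hlay : ∀ x y, E x y → lay y = lay x + 1) : ∀ (l : List V) (x t : V),
    List.IsChain E (x :: l) → (x :: l).getLast? = some t → lay t = lay x + l.length := by
  intro l
  induction l with
  | nil =>
    intro x t _ h
    simp only [List.getLast?_singleton, Option.some.injEq] at h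
    simp [h]
  | cons y l ih =>
    intro x t h1 h2
    rw [List.isChain_cons_cons] at h1
    rw [List.getLast?_cons_cons] at h2
    have h3 := ih y t h1.2 h2
    rw [h3, hlay x y h1.1, List.length_cons]
    omega

lemma path_form (hlay : ∀ x y, E x y → lay y = lay x + 1) {u t : V} (hut : lay t = lay u + 2)
    {q : List V} (hq : IsPath E q) (h1 : q.head? = some u) (h2 : q.getLast? = some t) :
    ∃ b, q = [u, b, t] ∧ E u b ∧ E b t := by
  match q, hq, h1, h2 with
  | [], hq, _, _ => exact absurd rfl hq.1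
  | x :: l, hq, h1, h2 =>
    have hx : x = u := by simpa using h1
    subst hx
    have h3 := lay_chain hlay l x t hq.2 h2
    have h4 : l.length = 2 := by omega
    match l, h4, hq, h2 with
    | [b, c], _, hq, h2 =>
      have hc : c = t := by simpa using h2
      subst hc
      have h5 := hq.2
      simp only [List.isChain_cons_cons] at h5
      exact ⟨b, rfl, h5.1, h5.2.1⟩

lemma isShortest_iff (hlay : ∀ x y, E x y → lay y = lay x + 1) {u t a : V}
    (hut : lay t = lay u + 2) (w : V → V → ℝ) :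
    IsShortest E w [u, a, t] ↔
      E u a ∧ E a t ∧ ∀ b, E u b → E b t → w u a + w a t ≤ w u b + w b t := by
  constructor
  · rintro ⟨hp, hq⟩
    have h5 := hp.2
    simp only [List.isChain_cons_cons] at h5
    refine ⟨h5.1, h5.2.1, fun b hb1 hb2 => ?_⟩
    have h6 := hq [u, b, t] ⟨by simp, by simp [hb1, hb2]⟩ rfl rfl
    simpa [wt] using h6
  · rintro ⟨h1, h2, h3⟩
    refine ⟨⟨by simp, by simp [h1, h2]⟩, fun q hq hq1 hq2 => ?_⟩
    obtain ⟨b, rfl, hb1, hb2⟩ := path_form hlay hut hq hq1 hq2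
    simpa [wt] using h3 b hb1 hb2

lemma key [Finite V] (hlay : ∀ x y, E x y → lay y = lay x + 1) {w w' : V → V → ℝ}
    (hp : Preserves E w w') {u t a : V} (hut : lay t = lay u + 2) (h1 : E u a) (h2 : E a t)
    (hmin : ∀ b, E u b → E b t → b ≠ a → w u a + w a t < w u b + w b t) :
    ∀ b, E u b → E b t → b ≠ a → w' u a + w' a t < w' u b + w' b t := by
  intro b hb1 hb2 hba
  by_contra hcon
  rw [not_lt] at hcon
  obtain ⟨c, ⟨hc1, hc2⟩, hc⟩ := Set.exists_min_image {b | E u b ∧ E b t}
    (fun b => w' u b + w' b t) (Set.toFinite _) ⟨a, h1, h2⟩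
  have h3 : ∀ d, E u d → E d t → (∀ e, E u e → E e t → w' u d + w' d t ≤ w' u e + w' e t) →
      d = a := by
    intro d hd1 hd2 hd
    by_contra hne
    have h4 := (isShortest_iff hlay hut w).1 (hp _ ((isShortest_iff hlay hut w').2 ⟨hd1, hd2, hd⟩))
    exact absurd (h4.2.2 a h1 h2) (not_le.2 (hmin d hd1 hd2 hne))
  have h4 : c = a := h3 c hc1 hc2 fun e he1 he2 => hc e ⟨he1, he2⟩
  subst h4
  exact hba (h3 b hb1 hb2 fun e he1 he2 => hcon.trans (hc e ⟨he1, he2⟩))

end general

/-! ## The construction -/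

/-- the vertices: type (`0` rows, `1` columns, `2, 3, 4, 5` tests) and index -/
abbrev Vt (m : ℕ) : Type := Fin 6 × Fin m

/-- the column `j` enters the test `i` of type `a` -/
def Adj (a i j : ℕ) : Prop :=
  (a = 2 ∧ (j = 0 ∨ j = i)) ∨ (a = 3 ∧ (j = i + 1 ∨ j = i + 3)) ∨
    (a = 4 ∧ (j = 0 ∨ j = i ∨ j = i + 1)) ∨ (a = 5 ∧ (j = 0 ∨ j = i + 1))

def Ed (m : ℕ) (x y : Vt m) : Prop :=
  (x.1.val = 0 ∧ y.1.val = 1) ∨ (x.1.val = 1 ∧ 2 ≤ y.1.val ∧ Adj y.1.val y.2.val x.2.val)

def lay {m : ℕ} (x : Vt m) : ℕ := if x.1.val = 0 then 0 else if x.1.val = 1 then 1 else 2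

lemma lay_ed (m : ℕ) : ∀ x y : Vt m, Ed m x y → lay y = lay x + 1 := by
  rintro x y (⟨h1, h2⟩ | ⟨h1, h2, _⟩)
  · simp [lay, h1, h2]
  · have h3 : y.1.val ≠ 0 := by omega
    have h4 : y.1.val ≠ 1 := by omega
    simp [lay, h1, h3, h4]

lemma acyclic (m : ℕ) (v : Vt m) : ¬ Relation.TransGen (Ed m) v v := by
  intro h
  have h1 : ∀ x y : Vt m, Relation.TransGen (Ed m) x y → lay x < lay y := by
    intro x y hxy
    induction hxy with
    | single h => have := lay_ed m _ _ h; omega
    | tail _ h ih => have := lay_ed m _ _ h; omega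
  exact lt_irrefl _ (h1 v v h)

noncomputable def zz (i j : ℕ) : ℝ :=
  if i = 0 ∨ j = 0 then 0 else if j = i then 8 ^ i / 4 else if j = i + 1 then 8 ^ i
    else if j = i + 2 then - 8 ^ i else if j = i + 3 then 2 * 8 ^ i else 0

noncomputable def tw (a i j : ℕ) : ℝ :=
  if a = 2 then (if j = 0 then 1 else 1 + 3 / 16 * 8 ^ i)
  else if a = 3 then (if j = i + 1 then 1 else 1 + 8 ^ i / 2)
  else if a = 4 then (if j = 0 then 1 + 8 ^ i / 128 else if j = i then 1 else 1 + 3 / 64 * 8 ^ i)
  else (if j = 0 then 1 else 1 + 8 ^ i / 2)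

noncomputable def W (m : ℕ) (x y : Vt m) : ℝ :=
  if x.1.val = 0 then 2 * 8 ^ m + 1 - zz x.2.val y.2.val else tw y.1.val y.2.val x.2.val

lemma zz_le {m i j : ℕ} (hi : i < m) : zz i j ≤ 2 * 8 ^ m := by
  have h1 : (8 : ℝ) ^ i ≤ 8 ^ m := pow_le_pow_right₀ (by norm_num) hi.le
  have h2 : (0 : ℝ) < 8 ^ i := by positivity
  unfold zz
  split_ifs <;> linarith

lemma tw_pos (a i j : ℕ) : 0 < tw a i j := by
  unfold tw
  split_ifs <;> positivity

lemma isDAG (m : ℕ) : IsWeightedDAG (Ed m) (W m) := by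
  refine ⟨acyclic m, fun x y _ => ?_⟩
  unfold W
  split_ifs with h
  · have := zz_le (j := y.2.val) x.2.2
    linarith
  · exact tw_pos _ _ _

section growth

variable {m : ℕ} {w' : Vt m → Vt m → ℝ}

/-- the row `i` -/
def rw' (i : ℕ) (h : i < m) : Vt m := (0, ⟨i, h⟩)
/-- the column `j` -/
def cl (j : ℕ) (h : j < m) : Vt m := (1, ⟨j, h⟩)
/-- the test `i` of type `a` -/
def ts (a : Fin 6) (i : ℕ) (h : i < m) : Vt m := (a, ⟨i, h⟩)

lemma ed_rc {i j : ℕ} (hi : i < m) (hj : j < m) : Ed m (rw' i hi) (cl j hj) := Or.inl ⟨rfl, rfl⟩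

lemma ed_ct {a : Fin 6} {i j : ℕ} (hi : i < m) (hj : j < m) (ha : 2 ≤ a.val)
    (h : Adj a.val i j) : Ed m (cl j hj) (ts a i hi) := Or.inr ⟨rfl, ha, h⟩

lemma W_rc {i j : ℕ} (hi : i < m) (hj : j < m) :
    W m (rw' i hi) (cl j hj) = 2 * 8 ^ m + 1 - zz i j := by simp [W, rw', cl]

lemma W_ct {a : Fin 6} {i j : ℕ} (hi : i < m) (hj : j < m) :
    W m (cl j hj) (ts a i hi) = tw a.val i j := by simp [W, ts, cl]

/-- The inequality enforced by one test at one row. -/
lemma test (hp : Preserves (Ed m) (W m) w') {a : Fin 6} (ha : 2 ≤ a.val) {r i c : ℕ} (hr : r < m)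
    (hi : i < m) (hc : c < m) (hac : Adj a.val i c)
    (hmin : ∀ b, b < m → Adj a.val i b → b ≠ c → tw a.val i c - zz r c < tw a.val i b - zz r b)
    {b : ℕ} (hb : b < m) (hab : Adj a.val i b) (hbc : b ≠ c) :
    w' (rw' r hr) (cl c hc) + w' (cl c hc) (ts a i hi) <
      w' (rw' r hr) (cl b hb) + w' (cl b hb) (ts a i hi) := by
  refine key (lay_ed m) hp ?_ (ed_rc hr hc) (ed_ct hi hc ha hac) ?_ (cl b hb) (ed_rc hr hb)
    (ed_ct hi hb ha hab) ?_
  · have h1 : a.val ≠ 0 := by omega
    have h2 : a.val ≠ 1 := by omega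
    simp only [lay, ts, rw', h1, h2, if_false]
    simp
  · rintro ⟨q, d, hd⟩ hq1 hq2 hne
    have hq : q = 1 := by
      rcases hq1 with ⟨_, h⟩ | ⟨h, _⟩
      · exact Fin.ext h
      · exact absurd h (by simp [rw'])
    subst hq
    have hdc : d ≠ c := by
      rintro rfl
      exact hne rfl
    have had : Adj a.val i d := by
      rcases hq2 with ⟨h, _⟩ | ⟨_, _, h⟩
      · exact absurd h (by simp)
      · exact h
    have h3 := hmin d hd had hdc
    have e1 : ((1 : Fin 6), (⟨d, hd⟩ : Fin m)) = cl d hd := rfl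
    rw [e1, W_rc, W_rc, W_ct, W_ct]
    linarith
  · intro h
    exact hbc (congrArg (fun x : Vt m => x.2.val) h)

end growth

/-- the cross differences of a reweighting -/
noncomputable def cz {m : ℕ} (hm : 0 < m) (w' : Vt m → Vt m → ℝ) (i j : ℕ) (hi : i < m)
    (hj : j < m) : ℝ :=
  w' (rw' i hi) (cl 0 hm) + w' (rw' 0 hm) (cl j hj) - w' (rw' i hi) (cl j hj)
    - w' (rw' 0 hm) (cl 0 hm)

section ineqs

variable {m : ℕ} {w' : Vt m → Vt m → ℝ}

lemma zz_zero_left (j : ℕ) : zz 0 j = 0 := by simp [zz]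
lemma zz_zero_right (i : ℕ) : zz i 0 = 0 := by simp [zz]
lemma zz_diag (i : ℕ) (hi : 1 ≤ i) : zz i i = 8 ^ i / 4 := by
  have : i ≠ 0 := by omega
  simp [zz, this]
lemma zz_one (i : ℕ) (hi : 1 ≤ i) : zz i (i + 1) = 8 ^ i := by
  have : i ≠ 0 := by omega
  simp [zz, this]
lemma zz_two (i : ℕ) (hi : 1 ≤ i) : zz i (i + 2) = - 8 ^ i := by
  have : i ≠ 0 := by omega
  simp [zz, this]
lemma zz_three (i : ℕ) (hi : 1 ≤ i) : zz i (i + 3) = 2 * 8 ^ i := by
  have : i ≠ 0 := by omega
  simp [zz, this]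
lemma zz_one_le (i : ℕ) : zz i (i + 1) ≤ 8 ^ i := by
  rcases Nat.eq_zero_or_pos i with h | h
  · subst h; rw [zz_zero_left]; positivity
  · rw [zz_one i h]

lemma ineq1 (hp : Preserves (Ed m) (W m) w') (hm : 0 < m) (i : ℕ) (hi : i + 1 < m) :
    cz hm w' i (i + 1) (by omega) hi < cz hm w' (i + 1) (i + 1) hi hi := by
  have hpos : (0 : ℝ) < 8 ^ i := by positivity
  have h1 := test hp (a := 2) (by decide) (r := i + 1) (i := i + 1) (c := i + 1) hi hi hi
    (Or.inl ⟨rfl, Or.inr rfl⟩) (by
      intro b _ hb hbc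
      have hb0 : b = 0 := by
        rcases hb with ⟨_, h⟩ | ⟨h, _⟩ | ⟨h, _⟩ | ⟨h, _⟩
        · exact h.resolve_right hbc
        all_goals exact absurd h (by decide)
      subst hb0
      rw [zz_diag _ (by omega), zz_zero_right]
      have e1 : tw (2 : Fin 6).val (i + 1) (i + 1) = 1 + 3 / 16 * 8 ^ (i + 1) := by simp [tw]
      have e2 : tw (2 : Fin 6).val (i + 1) 0 = 1 := by simp [tw]
      rw [e1, e2, pow_succ]
      linarith) (b := 0) hm (Or.inl ⟨rfl, Or.inl rfl⟩) (by omega)
  have h2 := test hp (a := 2) (by decide) (r := i) (i := i + 1) (c := 0) (by omega) hi hm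
    (Or.inl ⟨rfl, Or.inl rfl⟩) (by
      intro b _ hb hbc
      have hb0 : b = i + 1 := by
        rcases hb with ⟨_, h⟩ | ⟨h, _⟩ | ⟨h, _⟩ | ⟨h, _⟩
        · exact h.resolve_left hbc
        all_goals exact absurd h (by decide)
      subst hb0
      have e1 : tw (2 : Fin 6).val (i + 1) (i + 1) = 1 + 3 / 16 * 8 ^ (i + 1) := by simp [tw]
      have e2 : tw (2 : Fin 6).val (i + 1) 0 = 1 := by simp [tw]
      have h3 := zz_one_le i
      rw [e1, e2, zz_zero_right, pow_succ]
      linarith) (b := i + 1) hi (Or.inl ⟨rfl, Or.inr rfl⟩) (by omega)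
  unfold cz
  linarith

lemma ineq2 (hp : Preserves (Ed m) (W m) w') (hm : 0 < m) (i : ℕ) (h1i : 1 ≤ i)
    (hi : i + 3 < m) :
    cz hm w' i (i + 1) (by omega) (by omega) < cz hm w' i (i + 3) (by omega) hi := by
  have hpos : (0 : ℝ) < 8 ^ i := by positivity
  have e1 : tw (3 : Fin 6).val i (i + 1) = 1 := by simp [tw]
  have e3 : tw (3 : Fin 6).val i (i + 3) = 1 + 8 ^ i / 2 := by simp [tw]
  have h1 := test hp (a := 3) (by decide) (r := i) (i := i) (c := i + 3) (by omega) (by omega) hi
    (Or.inr (Or.inl ⟨rfl, Or.inr rfl⟩)) (by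
      intro b _ hb hbc
      have hb0 : b = i + 1 := by
        rcases hb with ⟨h, _⟩ | ⟨_, h⟩ | ⟨h, _⟩ | ⟨h, _⟩
        · exact absurd h (by decide)
        · exact h.resolve_right hbc
        all_goals exact absurd h (by decide)
      subst hb0
      rw [zz_three _ h1i, zz_one _ h1i, e1, e3]
      linarith) (b := i + 1) (by omega) (Or.inr (Or.inl ⟨rfl, Or.inl rfl⟩)) (by omega)
  have h2 := test hp (a := 3) (by decide) (r := 0) (i := i) (c := i + 1) hm (by omega) (by omega)
    (Or.inr (Or.inl ⟨rfl, Or.inl rfl⟩)) (by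
      intro b _ hb hbc
      have hb0 : b = i + 3 := by
        rcases hb with ⟨h, _⟩ | ⟨_, h⟩ | ⟨h, _⟩ | ⟨h, _⟩
        · exact absurd h (by decide)
        · exact h.resolve_left hbc
        all_goals exact absurd h (by decide)
      subst hb0
      rw [zz_zero_left, zz_zero_left, e1, e3]
      linarith) (b := i + 3) hi (Or.inr (Or.inl ⟨rfl, Or.inr rfl⟩)) (by omega)
  unfold cz
  linarith

lemma adj4 {i j : ℕ} : Adj (4 : Fin 6).val i j ↔ (j = 0 ∨ j = i ∨ j = i + 1) := by
  simp [Adj]

lemma adj5 {i j : ℕ} : Adj (5 : Fin 6).val i j ↔ (j = 0 ∨ j = i + 1) := by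
  simp [Adj]

lemma ineq3 (hp : Preserves (Ed m) (W m) w') (hm : 0 < m) (k : ℕ) (hk : 1 ≤ k)
    (hi : k + 3 < m) :
    cz hm w' (k + 2) (k + 2) (by omega) (by omega) + cz hm w' k (k + 3) (by omega) hi <
      cz hm w' (k + 2) (k + 3) (by omega) hi := by
  have hpos : (0 : ℝ) < 8 ^ k := by positivity
  have e0 : tw (4 : Fin 6).val (k + 2) 0 = 1 + 8 ^ k / 2 := by simp [tw, pow_succ]; ring
  have e1 : tw (4 : Fin 6).val (k + 2) (k + 2) = 1 := by simp [tw]
  have e2 : tw (4 : Fin 6).val (k + 2) (k + 3) = 1 + 3 * 8 ^ k := by simp [tw, pow_succ]; ring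
  -- row 0
  have h1 := test hp (a := 4) (by decide) (r := 0) (i := k + 2) (c := k + 2) hm (by omega)
    (by omega) (adj4.2 (by omega)) (by
      intro b _ hb hbc
      rcases adj4.1 hb with h | h | h
      · subst h; rw [zz_zero_left, zz_zero_left, e0, e1]; linarith
      · exact absurd h hbc
      · subst h; rw [zz_zero_left, zz_zero_left, e1, e2]; linarith)
    (b := 0) hm (adj4.2 (by omega)) (by omega)
  -- row k + 2
  have h2 := test hp (a := 4) (by decide) (r := k + 2) (i := k + 2) (c := k + 3) (by omega)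
    (by omega) (by omega) (adj4.2 (by omega)) (by
      intro b _ hb hbc
      rw [zz_one (k + 2) (by omega), e2]
      rcases adj4.1 hb with h | h | h
      · subst h; rw [zz_zero_right, e0, pow_add]; linarith
      · subst h; rw [zz_diag _ (by omega), e1, pow_add]; linarith
      · exact absurd h hbc)
    (b := k + 2) (by omega) (adj4.2 (by omega)) (by omega)
  -- row k
  have h3 := test hp (a := 4) (by decide) (r := k) (i := k + 2) (c := 0) (by omega) (by omega) hm
    (adj4.2 (by omega)) (by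
      intro b _ hb hbc
      rcases adj4.1 hb with h | h | h
      · exact absurd h hbc
      · subst h; rw [zz_zero_right, zz_two _ hk, e0, e1]; linarith
      · subst h; rw [zz_zero_right, zz_three _ hk, e0, e2]; linarith)
    (b := k + 3) (by omega) (adj4.2 (by omega)) (by omega)
  unfold cz
  linarith

lemma ineq4 (hp : Preserves (Ed m) (W m) w') (hm : 0 < m) (i : ℕ) (h1i : 1 ≤ i)
    (hi : i + 1 < m) : 0 < cz hm w' i (i + 1) (by omega) hi := by
  have hpos : (0 : ℝ) < 8 ^ i := by positivity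
  have e0 : tw (5 : Fin 6).val i 0 = 1 := by simp [tw]
  have e1 : tw (5 : Fin 6).val i (i + 1) = 1 + 8 ^ i / 2 := by simp [tw]
  have h1 := test hp (a := 5) (by decide) (r := i) (i := i) (c := i + 1) (by omega) (by omega) hi
    (adj5.2 (by omega)) (by
      intro b _ hb hbc
      rcases adj5.1 hb with h | h
      · subst h; rw [zz_zero_right, zz_one _ h1i, e0, e1]; linarith
      · exact absurd h hbc)
    (b := 0) hm (adj5.2 (by omega)) (by omega)
  have h2 := test hp (a := 5) (by decide) (r := 0) (i := i) (c := 0) hm (by omega) hm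
    (adj5.2 (by omega)) (by
      intro b _ hb hbc
      rcases adj5.1 hb with h | h
      · exact absurd h hbc
      · subst h; rw [zz_zero_left, zz_zero_left, e0, e1]; linarith)
    (b := i + 1) hi (adj5.2 (by omega)) (by omega)
  unfold cz
  linarith

end ineqs

lemma growth {m : ℕ} (hm : 0 < m) (w' : Vt m → Vt m → ℕ)
    (hp : Preserves (Ed m) (W m) (fun x y => (w' x y : ℝ))) :
    ∀ k, 1 ≤ k → ∀ (h0 : k < m) (h : k + 1 < m),
      (Nat.fib k : ℝ) ≤ cz hm (fun x y => (w' x y : ℝ)) k (k + 1) h0 h := by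
  have hint : ∀ (i j : ℕ) (hi : i < m) (hj : j < m), ∃ a : ℤ,
      cz hm (fun x y => (w' x y : ℝ)) i j hi hj = a := by
    intro i j hi hj
    refine ⟨(w' (rw' i hi) (cl 0 hm) : ℤ) + (w' (rw' 0 hm) (cl j hj) : ℤ)
      - (w' (rw' i hi) (cl j hj) : ℤ) - (w' (rw' 0 hm) (cl 0 hm) : ℤ), ?_⟩
    unfold cz
    push_cast
    ring
  have base : ∀ k, 1 ≤ k → ∀ (h0 : k < m) (h : k + 1 < m),
      (1 : ℝ) ≤ cz hm (fun x y => (w' x y : ℝ)) k (k + 1) h0 h := by
    intro k hk h0 h
    obtain ⟨a, ha⟩ := hint k (k + 1) h0 h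
    have h1 := ineq4 hp hm k hk h
    rw [ha] at h1 ⊢
    exact_mod_cast h1
  intro k
  induction k using Nat.strong_induction_on with
  | _ k ih =>
    intro hk h0 h
    by_cases hk2 : k ≤ 2
    · have : Nat.fib k = 1 := by
        interval_cases k <;> rfl
      rw [this, Nat.cast_one]
      exact base k hk h0 h
    · obtain ⟨j, rfl⟩ : ∃ j, k = j + 2 := ⟨k - 2, by omega⟩
      have hj : 1 ≤ j := by omega
      have h1 := ih (j + 1) (by omega) (by omega) (by omega) (by omega)
      have h2 := ih j (by omega) hj (by omega) (by omega)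
      have h3 := ineq1 hp hm (j + 1) (by omega)
      have h4 := ineq2 hp hm j hj (by omega)
      have h5 := ineq3 hp hm j hj (by omega)
      rw [Nat.fib_add_two, Nat.cast_add]
      have h6 : cz hm (fun x y => (w' x y : ℝ)) (j + 1) (j + 1 + 1) (by omega) (by omega) <
        cz hm (fun x y => (w' x y : ℝ)) (j + 2) (j + 2) (by omega) (by omega) := h3
      linarith

lemma two_pow_le_fib (k : ℕ) : 2 ^ k ≤ Nat.fib (2 * k + 2) := by
  induction k with
  | zero => simp
  | succ k ih =>
    have h1 : Nat.fib (2 * (k + 1) + 2) = Nat.fib (2 * k + 2) + Nat.fib (2 * k + 3) :=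
      Nat.fib_add_two
    have h2 : Nat.fib (2 * k + 2) ≤ Nat.fib (2 * k + 3) := Nat.fib_mono (by omega)
    rw [h1, pow_succ]
    omega

lemma needs (k : ℕ) : Needs (Ed (2 * k + 6)) (W (2 * k + 6)) (2 ^ k) := by
  intro w' _ hp
  have hm : 0 < 2 * k + 6 := by omega
  have h1 := growth hm w' hp (2 * k + 4) (by omega) (by omega) (by omega)
  have h2 : ((2 ^ (k + 1) : ℕ) : ℝ) ≤ Nat.fib (2 * k + 4) := by
    exact_mod_cast two_pow_le_fib (k + 1)
  by_contra hcon
  push Not at hcon
  have h3 := hcon (rw' (2 * k + 4) (by omega)) (cl 0 hm) (ed_rc _ _)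
  have h4 := hcon (rw' 0 hm) (cl (2 * k + 5) (by omega)) (ed_rc _ _)
  unfold cz at h1
  have h5 : (0 : ℝ) ≤ w' (rw' (2 * k + 4) (by omega)) (cl (2 * k + 4 + 1) (by omega)) :=
    Nat.cast_nonneg _
  have h6 : (0 : ℝ) ≤ w' (rw' 0 hm) (cl 0 hm) := Nat.cast_nonneg _
  rw [pow_succ] at h2
  push_cast at h2
  have h7 : (w' (rw' 0 hm) (cl (2 * k + 4 + 1) (by omega)) : ℝ) < 2 ^ k := h4
  linarith

/-- For every `k` there is a weighted DAG with `12 k + 36` vertices such that every shortest-paths
preserving reweighting with positive integer weights has an edge of weight at least `2 ^ k`; in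
particular, for every `c > 0` there is a weighted DAG with `n ≥ 2` vertices such that every
shortest-paths preserving reweighting with positive integer weights has an edge of weight larger
than `n ^ c`. -/
theorem result :
    (∀ k : ℕ, ∃ (V : Type) (_ : Fintype V) (E : V → V → Prop) (w : V → V → ℝ),
      Fintype.card V = 12 * k + 36 ∧ IsWeightedDAG E w ∧ Needs E w (2 ^ k)) ∧
    ∀ c : ℝ, 0 < c → ∃ (n : ℕ) (V : Type) (_ : Fintype V) (E : V → V → Prop) (w : V → V → ℝ),
      2 ≤ n ∧ Fintype.card V = n ∧ IsWeightedDAG E w ∧ ∃ N, (n : ℝ) ^ c < N ∧ Needs E w N := by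
  have main : ∀ k : ℕ, ∃ (V : Type) (_ : Fintype V) (E : V → V → Prop) (w : V → V → ℝ),
      Fintype.card V = 12 * k + 36 ∧ IsWeightedDAG E w ∧ Needs E w (2 ^ k) := by
    intro k
    refine ⟨Vt (2 * k + 6), inferInstance, Ed _, W _, ?_, isDAG _, needs k⟩
    simp only [Vt, Fintype.card_prod, Fintype.card_fin]
    ring
  refine ⟨main, fun c hc => ?_⟩
  obtain ⟨N, hN⟩ := exists_nat_gt c
  have h1 := tendsto_pow_const_div_const_pow_of_one_lt N (r := (2 : ℝ)) (by norm_num)
  have h2 : (0 : ℝ) < 1 / 48 ^ N := by positivity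
  have h3 := h1.eventually (gt_mem_nhds h2)
  obtain ⟨k, hk, hk1⟩ := (h3.and (Filter.eventually_ge_atTop 1)).exists
  obtain ⟨V, i, E, w, hV, hE, hw⟩ := main k
  refine ⟨12 * k + 36, V, i, E, w, by omega, hV, hE, 2 ^ k, ?_, hw⟩
  have h4 : ((12 * k + 36 : ℕ) : ℝ) ^ c ≤ ((12 * k + 36 : ℕ) : ℝ) ^ (N : ℝ) := by
    apply Real.rpow_le_rpow_of_exponent_le
    · exact_mod_cast (by omega : 1 ≤ 12 * k + 36)
    · exact hN.le
  rw [Real.rpow_natCast] at h4
  refine lt_of_le_of_lt h4 ?_
  have h5 : ((12 * k + 36 : ℕ) : ℝ) ≤ 48 * (k : ℝ) := by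
    have : (12 * k + 36 : ℕ) ≤ 48 * k := by omega
    exact_mod_cast this
  have h6 : ((12 * k + 36 : ℕ) : ℝ) ^ N ≤ (48 * (k : ℝ)) ^ N :=
    pow_le_pow_left₀ (Nat.cast_nonneg _) h5 N
  refine lt_of_le_of_lt h6 ?_
  rw [mul_pow]
  rw [div_lt_div_iff₀ (by positivity) (by positivity)] at hk
  linarith

end Pool.Agent.Results.MP_546b07_lc.ExponentialWeights
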